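import Pool.Agent.Lib.MP_a9445a_lc.BE.Lang

/-!
# A small programming language

Functional programs over integers and arrays of integers, with logarithmic cost, with an instruction for the
product of two `k × k` matrices, which costs `k ^ τ` (times the length of the entries), with loops which
concatenate arrays, and with loops which change a stored array in every pass.
-/

set_option autoImplicit false

namespace Pool.Agent.MPa9445a.GD

open Pool.Agent.MPa9445a.BE (Ty Env nth argmax matMul sz asz)

/-- Programs whose variables have the types `Γ` and whose result has type `t`. -/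
inductive Ex : List Ty → Ty → Type
  /-- the newest variable -/
  | top {Γ : List Ty} {t : Ty} : Ex (t :: Γ) t
  /-- a program which does not use the newest variable -/
  | wk {Γ : List Ty} {s t : Ty} (e : Ex Γ t) : Ex (s :: Γ) t
  /-- a constant -/
  | const {Γ : List Ty} (c : ℤ) : Ex Γ .int
  /-- sum of two numbers -/
  | add {Γ : List Ty} (a b : Ex Γ .int) : Ex Γ .int
  /-- difference -/
  | sub {Γ : List Ty} (a b : Ex Γ .int) : Ex Γ .int
  /-- product -/
  | mul {Γ : List Ty} (a b : Ex Γ .int) : Ex Γ .int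
  /-- integral quotient -/
  | div {Γ : List Ty} (a b : Ex Γ .int) : Ex Γ .int
  /-- remainder -/
  | mod {Γ : List Ty} (a b : Ex Γ .int) : Ex Γ .int
  /-- comparison: `1` if `a ≤ b`, otherwise `0` -/
  | le {Γ : List Ty} (a b : Ex Γ .int) : Ex Γ .int
  /-- branching: `a` if `c ≠ 0`, otherwise `b` -/
  | ite {Γ : List Ty} (c a b : Ex Γ .int) : Ex Γ .int
  /-- power of two -/
  | pow2 {Γ : List Ty} (a : Ex Γ .int) : Ex Γ .int
  /-- the entry of an array (`0` outside the array) -/
  | get {Γ : List Ty} (l : Ex Γ .arr) (i : Ex Γ .int) : Ex Γ .int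
  /-- the number of entries of an array -/
  | len {Γ : List Ty} (l : Ex Γ .arr) : Ex Γ .int
  /-- loop: the sum of `e i`, `i < k` -/
  | sum {Γ : List Ty} (k : Ex Γ .int) (e : Ex (.int :: Γ) .int) : Ex Γ .int
  /-- loop: the least `i < k` for which `e i` is maximal -/
  | amax {Γ : List Ty} (k : Ex Γ .int) (e : Ex (.int :: Γ) .int) : Ex Γ .int
  /-- loop: the array of the `e i`, `i < k` -/
  | tab {Γ : List Ty} (k : Ex Γ .int) (e : Ex (.int :: Γ) .int) : Ex Γ .arr
  /-- loop: the array of the `i < k` with `e i ≠ 0` -/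
  | filter {Γ : List Ty} (k : Ex Γ .int) (e : Ex (.int :: Γ) .int) : Ex Γ .arr
  /-- the product of two `k × k` matrices, given by arrays with `k ^ 2` entries, row by row -/
  | mm {Γ : List Ty} (k : Ex Γ .int) (a b : Ex Γ .arr) : Ex Γ .arr
  /-- loop: the concatenation of the arrays `e 0`, ..., `e (k - 1)` -/
  | cat {Γ : List Ty} (k : Ex Γ .int) (e : Ex (.int :: Γ) .arr) : Ex Γ .arr
  /-- loop with a stored array: it is `a` at the beginning, and in the pass `i < k` it is replaced by `e i s`,
  where `s` is the array which was stored before the pass -/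
  | iter {Γ : List Ty} (k : Ex Γ .int) (a : Ex Γ .arr) (e : Ex (.int :: .arr :: Γ) .arr) : Ex Γ .arr
  /-- store the value of `a` in a new variable and continue with `e` -/
  | bind {Γ : List Ty} {s t : Ty} (a : Ex Γ s) (e : Ex (s :: Γ) t) : Ex Γ t

/-- The array after `k` passes of a loop which replaces `s` by `f i s` in the pass `i`. -/
def itr (f : ℕ → List ℤ → List ℤ) (a : List ℤ) : ℕ → List ℤ
  | 0 => a
  | k + 1 => f k (itr f a k)

namespace Ex

/-- The result of a program. -/
def eval : {Γ : List Ty} → {t : Ty} → Ex Γ t → Env Γ → t.Val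
  | _, _, top, γ => γ.1
  | _, _, wk e, γ => e.eval γ.2
  | _, _, const c, _ => c
  | _, _, add a b, γ => a.eval γ + b.eval γ
  | _, _, sub a b, γ => a.eval γ - b.eval γ
  | _, _, mul a b, γ => a.eval γ * b.eval γ
  | _, _, div a b, γ => a.eval γ / b.eval γ
  | _, _, mod a b, γ => a.eval γ % b.eval γ
  | _, _, le a b, γ => if a.eval γ ≤ b.eval γ then 1 else 0
  | _, _, ite c a b, γ => if c.eval γ ≠ 0 then a.eval γ else b.eval γ
  | _, _, pow2 a, γ => 2 ^ (a.eval γ).toNat
  | _, _, get l i, γ => nth (l.eval γ) (i.eval γ)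
  | _, _, len l, γ => ((l.eval γ).length : ℤ)
  | _, _, sum k e, γ => ∑ i ∈ Finset.range (k.eval γ).toNat, e.eval ((i : ℤ), γ)
  | _, _, amax k e, γ => (argmax (k.eval γ).toNat fun i => e.eval (i, γ) : ℕ)
  | _, _, tab k e, γ => (List.range (k.eval γ).toNat).map fun i : ℕ => e.eval ((i : ℤ), γ)
  | _, _, filter k e, γ => ((List.range (k.eval γ).toNat).filter fun i : ℕ =>
      decide (e.eval ((i : ℤ), γ) ≠ 0)).map fun i : ℕ => (i : ℤ)
  | _, _, mm k a b, γ => matMul (k.eval γ).toNat (a.eval γ) (b.eval γ)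
  | _, _, cat k e, γ => (List.range (k.eval γ).toNat).flatMap fun i : ℕ => e.eval ((i : ℤ), γ)
  | _, _, iter k a e, γ => itr (fun i s => e.eval ((i : ℤ), s, γ)) (a.eval γ) (k.eval γ).toNat
  | _, _, bind a e, γ => e.eval (a.eval γ, γ)

/-- The running time. Every elementary operation on numbers is charged one plus the number of
binary digits of its result (products, quotients and remainders: the product of the lengths of the
operands, plus one). A loop is charged the total running time of its passes, plus in every pass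
one plus the lengths of the loop counter and of the numbers which it adds, compares or stores; a loop
which concatenates arrays is charged in every pass in addition the number of entries of the array times one plus
the length of its longest entry. The product of two `k × k` matrices is charged `k ^ τ` times one plus the lengths
of the entries. -/
noncomputable def cost (τ : ℝ) : {Γ : List Ty} → {t : Ty} → Ex Γ t → Env Γ → ℝ
  | _, .int, top, γ => 1 + sz γ.1
  | _, .arr, top, _ => 1
  | _, _, wk e, γ => e.cost τ γ.2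
  | _, _, const c, _ => 1 + sz c
  | _, _, add a b, γ => a.cost τ γ + b.cost τ γ + 1 + sz (a.eval γ + b.eval γ)
  | _, _, sub a b, γ => a.cost τ γ + b.cost τ γ + 1 + sz (a.eval γ - b.eval γ)
  | _, _, mul a b, γ => a.cost τ γ + b.cost τ γ + (1 + sz (a.eval γ)) * (1 + sz (b.eval γ))
  | _, _, div a b, γ => a.cost τ γ + b.cost τ γ + (1 + sz (a.eval γ)) * (1 + sz (b.eval γ))
  | _, _, mod a b, γ => a.cost τ γ + b.cost τ γ + (1 + sz (a.eval γ)) * (1 + sz (b.eval γ))
  | _, _, le a b, γ => a.cost τ γ + b.cost τ γ + 1 + sz (a.eval γ) + sz (b.eval γ)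
  | _, _, ite c a b, γ => c.cost τ γ + 1 + if c.eval γ ≠ 0 then a.cost τ γ else b.cost τ γ
  | _, _, pow2 a, γ => a.cost τ γ + 1 + sz (2 ^ (a.eval γ).toNat)
  | _, _, get l i, γ => l.cost τ γ + i.cost τ γ + 1 + sz (nth (l.eval γ) (i.eval γ))
  | _, _, len l, γ => l.cost τ γ + 1 + sz (l.eval γ).length
  | _, _, sum k e, γ => k.cost τ γ + 1 + ∑ i ∈ Finset.range (k.eval γ).toNat,
      (e.cost τ ((i : ℤ), γ) + 1 + sz (k.eval γ) +
        sz (∑ j ∈ Finset.range (k.eval γ).toNat, |e.eval ((j : ℤ), γ)|))
  | _, _, amax k e, γ => k.cost τ γ + 1 + ∑ i ∈ Finset.range (k.eval γ).toNat,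
      (e.cost τ ((i : ℤ), γ) + 1 + sz (k.eval γ) + sz (e.eval ((i : ℤ), γ)))
  | _, _, tab k e, γ => k.cost τ γ + 1 + ∑ i ∈ Finset.range (k.eval γ).toNat,
      (e.cost τ ((i : ℤ), γ) + 1 + sz (k.eval γ) + sz (e.eval ((i : ℤ), γ)))
  | _, _, filter k e, γ => k.cost τ γ + 1 + ∑ i ∈ Finset.range (k.eval γ).toNat,
      (e.cost τ ((i : ℤ), γ) + 1 + sz (k.eval γ) + sz (e.eval ((i : ℤ), γ)))
  | _, _, mm k a b, γ => k.cost τ γ + a.cost τ γ + b.cost τ γ + 1 +
      ((k.eval γ).toNat : ℝ) ^ τ * (1 + sz (k.eval γ) + asz (a.eval γ) + asz (b.eval γ) +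
        asz (matMul (k.eval γ).toNat (a.eval γ) (b.eval γ)))
  | _, _, cat k e, γ => k.cost τ γ + 1 + ∑ i ∈ Finset.range (k.eval γ).toNat,
      (e.cost τ ((i : ℤ), γ) + 1 + sz (k.eval γ) +
        (e.eval ((i : ℤ), γ)).length * (1 + asz (e.eval ((i : ℤ), γ))))
  | _, _, iter k a e, γ => k.cost τ γ + a.cost τ γ + 1 + ∑ i ∈ Finset.range (k.eval γ).toNat,
      (e.cost τ ((i : ℤ), itr (fun j s => e.eval ((j : ℤ), s, γ)) (a.eval γ) i, γ) + 1 +
        sz (k.eval γ))
  | _, _, bind a e, γ => a.cost τ γ + 1 + e.cost τ (a.eval γ, γ)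

end Ex

end Pool.Agent.MPa9445a.GD
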