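import Pool.Agent.Lib.MP_a9445a_lc.GD.Lang

/-!
# Meaning and running time of the programs, by recursion

The same functions as `Ex.eval` and `Ex.cost`, written with the recursor of `Ex` (one line for each kind of
program, in the order of the definition of `Ex`).
-/

set_option autoImplicit false

namespace Pool.Agent.MPa9445a.GD

open Pool.Agent.MPa9445a.BE (Ty Env nth argmax matMul sz asz)

/-- The array of the `i < k` with `f i ≠ 0`. -/
def selectNonzero (k : ℕ) (f : ℤ → ℤ) : List ℤ :=
  ((List.range k).filter fun i : ℕ => decide (f (i : ℤ) ≠ 0)).map fun i : ℕ => (i : ℤ)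

/-- The concatenation of the arrays `f 0`, ..., `f (k - 1)`. -/
def concat (k : ℕ) (f : ℤ → List ℤ) : List ℤ := (List.range k).flatMap fun i : ℕ => f (i : ℤ)

/-- The array which is stored after `k` passes, if it is `a` at the beginning and `s` is replaced by `f i s` in the
pass `i`. -/
def stateAfter (f : ℤ → List ℤ → List ℤ) (a : List ℤ) (k : ℕ) : List ℤ :=
  @Nat.rec (fun _ => List ℤ) a (fun i s => f (i : ℤ) s) k

/-- The result of a program for the values `γ` of its variables. -/
noncomputable def Ex.run {Γ : List Ty} {t : Ty} (e : Ex Γ t) : Env Γ → t.Val :=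
  @Ex.rec (fun Γ t _ => Env Γ → t.Val)
    -- top: the newest variable
    (fun γ => γ.1)
    -- wk: a program without the newest variable
    (fun _ r γ => r γ.2)
    -- const
    (fun c _ => c)
    -- add, sub, mul, div, mod
    (fun _ _ a b γ => a γ + b γ)
    (fun _ _ a b γ => a γ - b γ)
    (fun _ _ a b γ => a γ * b γ)
    (fun _ _ a b γ => a γ / b γ)
    (fun _ _ a b γ => a γ % b γ)
    -- le
    (fun _ _ a b γ => if a γ ≤ b γ then (1 : ℤ) else 0)
    -- ite
    (fun _ _ _ c a b γ => if c γ ≠ 0 then a γ else b γ)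
    -- pow2
    (fun _ a γ => (2 : ℤ) ^ (a γ).toNat)
    -- get
    (fun _ _ l i γ => nth (l γ) (i γ))
    -- len
    (fun _ l γ => ((l γ).length : ℤ))
    -- sum
    (fun _ _ k e γ => ∑ i ∈ Finset.range (k γ).toNat, e ((i : ℤ), γ))
    -- amax
    (fun _ _ k e γ => (argmax (k γ).toNat fun i => e (i, γ) : ℕ))
    -- tab
    (fun _ _ k e γ => (List.range (k γ).toNat).map fun i : ℕ => e ((i : ℤ), γ))
    -- filter
    (fun _ _ k e γ => selectNonzero (k γ).toNat fun i => e (i, γ))
    -- mm
    (fun _ _ _ k a b γ => matMul (k γ).toNat (a γ) (b γ))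
    -- cat
    (fun _ _ k e γ => concat (k γ).toNat fun i => e (i, γ))
    -- iter
    (fun _ _ _ k a e γ => stateAfter (fun i s => e (i, s, γ)) (a γ) (k γ).toNat)
    -- bind
    (fun _ _ a e γ => e (a γ, γ)) Γ t e

/-- The charge for reading a variable: its length for a number, `1` for an array. -/
def readCost : {t : Ty} → t.Val → ℝ
  | .int, v => 1 + sz v
  | .arr, _ => 1

/-- The charge for a product, quotient or remainder. -/
def mulCost (v w : ℤ) : ℝ := (1 + sz v) * (1 + sz w)

/-- The charge for a loop with `k` passes, in the pass `i` with body cost `c i` and number `f i`. -/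
noncomputable def loopCost (k : ℤ) (c : ℤ → ℝ) (f : ℤ → ℤ) : ℝ :=
  1 + ∑ i ∈ Finset.range k.toNat, (c i + 1 + sz k + sz (f i))

/-- The charge for a sum: in each pass the length of the sum of the absolute values. -/
noncomputable def sumCost (k : ℤ) (c : ℤ → ℝ) (f : ℤ → ℤ) : ℝ :=
  loopCost k c fun _ => ∑ j ∈ Finset.range k.toNat, |f j|

/-- The charge for the product of two `k × k` matrices. -/
noncomputable def mmCost (τ : ℝ) (k : ℤ) (a b : List ℤ) : ℝ :=
  1 + (k.toNat : ℝ) ^ τ * (1 + sz k + asz a + asz b + asz (matMul k.toNat a b))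

/-- The charge for a concatenation of `k` arrays, with body cost `c i` and array `f i` in the pass `i`: every entry of an
array is charged one plus the length of the longest entry. -/
noncomputable def catCost (k : ℤ) (c : ℤ → ℝ) (f : ℤ → List ℤ) : ℝ :=
  1 + ∑ i ∈ Finset.range k.toNat, (c i + 1 + sz k + (f i).length * (1 + asz (f i)))

/-- The charge for a loop with a stored array, which is `s i` before the pass `i`, with body cost `c i (s i)`. -/
noncomputable def iterCost (k : ℤ) (c : ℤ → List ℤ → ℝ) (s : ℕ → List ℤ) : ℝ :=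
  1 + ∑ i ∈ Finset.range k.toNat, (c i (s i) + 1 + sz k)

/-- The running time of a program for the values `γ` of its variables, when the product of two `k × k` matrices is
charged `k ^ τ` times the length of the entries. -/
noncomputable def Ex.time (τ : ℝ) {Γ : List Ty} {t : Ty} (e : Ex Γ t) : Env Γ → ℝ :=
  @Ex.rec (fun Γ _ _ => Env Γ → ℝ)
    -- top
    (fun γ => readCost γ.1)
    -- wk
    (fun _ r γ => r γ.2)
    -- const
    (fun c _ => 1 + sz c)
    -- add, sub, mul, div, mod
    (fun a b s t γ => s γ + t γ + 1 + sz (a.run γ + b.run γ))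
    (fun a b s t γ => s γ + t γ + 1 + sz (a.run γ - b.run γ))
    (fun a b s t γ => s γ + t γ + mulCost (a.run γ) (b.run γ))
    (fun a b s t γ => s γ + t γ + mulCost (a.run γ) (b.run γ))
    (fun a b s t γ => s γ + t γ + mulCost (a.run γ) (b.run γ))
    -- le
    (fun a b s t γ => s γ + t γ + 1 + sz (a.run γ) + sz (b.run γ))
    -- ite
    (fun c _ _ r s t γ => r γ + 1 + if c.run γ ≠ 0 then s γ else t γ)
    -- pow2
    (fun a s γ => s γ + 1 + sz (2 ^ (a.run γ).toNat))
    -- get
    (fun l i s t γ => s γ + t γ + 1 + sz (nth (l.run γ) (i.run γ)))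
    -- len
    (fun l s γ => s γ + 1 + sz (l.run γ).length)
    -- sum
    (fun k e s t γ => s γ + sumCost (k.run γ) (fun i => t (i, γ)) fun i => e.run (i, γ))
    -- amax
    (fun k e s t γ => s γ + loopCost (k.run γ) (fun i => t (i, γ)) fun i => e.run (i, γ))
    -- tab
    (fun k e s t γ => s γ + loopCost (k.run γ) (fun i => t (i, γ)) fun i => e.run (i, γ))
    -- filter
    (fun k e s t γ => s γ + loopCost (k.run γ) (fun i => t (i, γ)) fun i => e.run (i, γ))
    -- mm
    (fun k a b r s t γ => r γ + s γ + t γ + mmCost τ (k.run γ) (a.run γ) (b.run γ))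
    -- cat
    (fun k e s t γ => s γ + catCost (k.run γ) (fun i => t (i, γ)) fun i => e.run (i, γ))
    -- iter
    (fun k a e r s t γ => r γ + s γ + iterCost (k.run γ) (fun i l => t (i, l, γ)) fun i =>
      stateAfter (fun j l => e.run (j, l, γ)) (a.run γ) i)
    -- bind
    (fun a _ s t γ => s γ + 1 + t (a.run γ, γ)) Γ t e

theorem stateAfter_eq (f : ℤ → List ℤ → List ℤ) (a : List ℤ) (k : ℕ) :
    stateAfter f a k = itr (fun i s => f (i : ℤ) s) a k := by
  induction k with
  | zero => rfl
  | succ k ih =>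
    show f (k : ℤ) (stateAfter f a k) = f (k : ℤ) (itr (fun i s => f (i : ℤ) s) a k)
    rw [ih]

theorem Ex.run_eq {Γ : List Ty} {t : Ty} (e : Ex Γ t) : e.run = e.eval := by
  induction e with
  | top => rfl
  | wk e h => funext γ; exact congrFun h γ.2
  | const c => rfl
  | add a b ha hb => funext γ; show a.run γ + b.run γ = _; rw [ha, hb]; rfl
  | sub a b ha hb => funext γ; show a.run γ - b.run γ = _; rw [ha, hb]; rfl
  | mul a b ha hb => funext γ; show a.run γ * b.run γ = _; rw [ha, hb]; rfl
  | div a b ha hb => funext γ; show a.run γ / b.run γ = _; rw [ha, hb]; rfl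
  | mod a b ha hb => funext γ; show a.run γ % b.run γ = _; rw [ha, hb]; rfl
  | le a b ha hb => funext γ; show (if a.run γ ≤ b.run γ then (1 : ℤ) else 0) = _; rw [ha, hb]; rfl
  | ite c a b hc ha hb =>
    funext γ; show (if c.run γ ≠ 0 then a.run γ else b.run γ) = _; rw [hc, ha, hb]; rfl
  | pow2 a ha => funext γ; show (2 : ℤ) ^ (a.run γ).toNat = _; rw [ha]; rfl
  | get l i hl hi => funext γ; show nth (l.run γ) (i.run γ) = _; rw [hl, hi]; rfl
  | len l hl => funext γ; show ((l.run γ).length : ℤ) = _; rw [hl]; rfl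
  | sum k e hk he =>
    funext γ; show ∑ i ∈ Finset.range (k.run γ).toNat, e.run ((i : ℤ), γ) = _; rw [hk, he]; rfl
  | amax k e hk he =>
    funext γ; show (argmax (k.run γ).toNat (fun i => e.run (i, γ)) : ℤ) = _; rw [hk, he]; rfl
  | tab k e hk he =>
    funext γ; show (List.range (k.run γ).toNat).map (fun i : ℕ => e.run ((i : ℤ), γ)) = _
    rw [hk, he]; rfl
  | filter k e hk he =>
    funext γ; show selectNonzero (k.run γ).toNat (fun i => e.run (i, γ)) = _; rw [hk, he]; rfl
  | mm k a b hk ha hb =>
    funext γ; show matMul (k.run γ).toNat (a.run γ) (b.run γ) = _; rw [hk, ha, hb]; rfl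
  | cat k e hk he =>
    funext γ; show concat (k.run γ).toNat (fun i => e.run (i, γ)) = _; rw [hk, he]; rfl
  | iter k a e hk ha he =>
    funext γ
    show stateAfter (fun i s => e.run (i, s, γ)) (a.run γ) (k.run γ).toNat = _
    rw [stateAfter_eq, hk, ha, he]; rfl
  | bind a e ha he => funext γ; show e.run (a.run γ, γ) = _; rw [ha, he]; rfl

theorem Ex.time_eq (τ : ℝ) {Γ : List Ty} {t : Ty} (e : Ex Γ t) : e.time τ = e.cost τ := by
  induction e with
  | @top Γ t =>
    cases t <;> rfl
  | @wk Γ s t e h =>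
    funext γ
    show e.time τ γ.2 = _
    rw [h]
    cases t <;> simp only [Ex.cost]
  | const c => rfl
  | add a b ha hb =>
    funext γ; show a.time τ γ + b.time τ γ + 1 + sz (a.run γ + b.run γ) = _
    rw [ha, hb, a.run_eq, b.run_eq]; rfl
  | sub a b ha hb =>
    funext γ; show a.time τ γ + b.time τ γ + 1 + sz (a.run γ - b.run γ) = _
    rw [ha, hb, a.run_eq, b.run_eq]; rfl
  | mul a b ha hb =>
    funext γ; show a.time τ γ + b.time τ γ + mulCost (a.run γ) (b.run γ) = _
    rw [ha, hb, a.run_eq, b.run_eq]; rfl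
  | div a b ha hb =>
    funext γ; show a.time τ γ + b.time τ γ + mulCost (a.run γ) (b.run γ) = _
    rw [ha, hb, a.run_eq, b.run_eq]; rfl
  | mod a b ha hb =>
    funext γ; show a.time τ γ + b.time τ γ + mulCost (a.run γ) (b.run γ) = _
    rw [ha, hb, a.run_eq, b.run_eq]; rfl
  | le a b ha hb =>
    funext γ; show a.time τ γ + b.time τ γ + 1 + sz (a.run γ) + sz (b.run γ) = _
    rw [ha, hb, a.run_eq, b.run_eq]; rfl
  | ite c a b hc ha hb =>
    funext γ
    show c.time τ γ + 1 + (if c.run γ ≠ 0 then a.time τ γ else b.time τ γ) = _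
    rw [hc, ha, hb, c.run_eq]; rfl
  | pow2 a ha =>
    funext γ; show a.time τ γ + 1 + sz (2 ^ (a.run γ).toNat) = _
    rw [ha, a.run_eq]; rfl
  | get l i hl hi =>
    funext γ; show l.time τ γ + i.time τ γ + 1 + sz (nth (l.run γ) (i.run γ)) = _
    rw [hl, hi, l.run_eq, i.run_eq]; rfl
  | len l hl =>
    funext γ; show l.time τ γ + 1 + sz ((l.run γ).length : ℤ) = _
    rw [hl, l.run_eq]; rfl
  | sum k e hk he =>
    funext γ
    show k.time τ γ + sumCost (k.run γ) (fun i => e.time τ (i, γ)) (fun i => e.run (i, γ)) = _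
    rw [hk, he, k.run_eq, e.run_eq]
    simp only [sumCost, loopCost, Ex.cost, ← add_assoc]
  | amax k e hk he =>
    funext γ
    show k.time τ γ + loopCost (k.run γ) (fun i => e.time τ (i, γ)) (fun i => e.run (i, γ)) = _
    rw [hk, he, k.run_eq, e.run_eq]
    simp only [loopCost, Ex.cost, ← add_assoc]
  | tab k e hk he =>
    funext γ
    show k.time τ γ + loopCost (k.run γ) (fun i => e.time τ (i, γ)) (fun i => e.run (i, γ)) = _
    rw [hk, he, k.run_eq, e.run_eq]
    simp only [loopCost, Ex.cost, ← add_assoc]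
  | filter k e hk he =>
    funext γ
    show k.time τ γ + loopCost (k.run γ) (fun i => e.time τ (i, γ)) (fun i => e.run (i, γ)) = _
    rw [hk, he, k.run_eq, e.run_eq]
    simp only [loopCost, Ex.cost, ← add_assoc]
  | mm k a b hk ha hb =>
    funext γ
    show k.time τ γ + a.time τ γ + b.time τ γ + mmCost τ (k.run γ) (a.run γ) (b.run γ) = _
    rw [hk, ha, hb, k.run_eq, a.run_eq, b.run_eq]
    simp only [mmCost, Ex.cost, ← add_assoc]
  | cat k e hk he =>
    funext γ
    show k.time τ γ + catCost (k.run γ) (fun i => e.time τ (i, γ)) (fun i => e.run (i, γ)) = _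
    rw [hk, he, k.run_eq, e.run_eq]
    simp only [catCost, Ex.cost, ← add_assoc]
  | iter k a e hk ha he =>
    funext γ
    show k.time τ γ + a.time τ γ + iterCost (k.run γ) (fun i l => e.time τ (i, l, γ)) (fun i =>
      stateAfter (fun j l => e.run (j, l, γ)) (a.run γ) i) = _
    rw [hk, ha, he, k.run_eq, a.run_eq, e.run_eq]
    simp only [iterCost, stateAfter_eq, Ex.cost, ← add_assoc]
  | @bind Γ s t a e ha he =>
    funext γ
    show a.time τ γ + 1 + e.time τ (a.run γ, γ) = _
    rw [ha, he, a.run_eq]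
    cases t <;> simp only [Ex.cost]

end Pool.Agent.MPa9445a.GD
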